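import Pool.Agent.U644.EF.Core

/-!
# Szpiro's small points conjecture in a fixed genus, the effective Shafarevich conjecture and an existence problem

The genus `g ≥ 2` is fixed. Number fields, finite sets of places, curves (given by equations) and tuples of polynomials are
numbered. `ArakelovTheory` collects the known facts used.

* `ω² ≤ 4 g (g - 1) h(x)` for all points `x` (Faltings); there is a point with `h(x) ≤ ω² / (2 g - 2) + 1` (Zhang's inequality for
  the nef adelic line bundle `ω`), and `ω² ≥ 0`.
* `ω² ≤ 12 h_F + C`: Noether's formula, as the discriminant terms at the finite places are nonnegative and Faltings' delta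
  invariant is bounded below in genus `g`.
* `h_F ≤ C (ω² + 1)`: Yuan's bigness of the admissible relative dualizing sheaf over the moduli of curves of genus `g` (with
  `ω² ≥ ω_a²`; see also Dimitrov-Gao-Habegger, Kühne, Wilms).
* Faltings, effective Hermite-Minkowski and Chebotarev: there is a finite set `V(K,S)` of places, computable from `(K,S)`, such
  that curves of genus `g` with bad reduction at most in `S` and the same Frobenius polynomials at `V` have isogenous Jacobians.
  The height is then bounded from one curve to the other (Masser-Wüstholz), and curves of bounded height can be listed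
  (effective Northcott property).
-/

set_option autoImplicit false

namespace Pool.Agent.Results.MP_fe3691_nt.SmallPointsAndExistence

/-- Curves of a fixed genus `g ≥ 2` over number fields, with the known facts that are used. A natural number `d` is a code of
`(K,S)`, and `X` a code of a curve over a number field. -/
structure ArakelovTheory where
  /-- the genus -/
  g : ℕ
  two_le : 2 ≤ g
  /-- `X` is (the code of) a curve of genus `g` over `K` with semi-stable reduction and set of bad reduction places `S`, where
  `d` is the code of `(K,S)` -/
  good : ℕ → ℕ → Prop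
  good_dec : ComputablePred fun p : ℕ × ℕ => good p.1 p.2
  /-- the set of the stable Arakelov heights `h(x)` of the points `x` of `X` over the algebraic closure of `K` -/
  pts : ℕ → Set ℝ
  /-- the stable self-intersection number `(ω, ω)` of the relative dualizing sheaf -/
  omegaSq : ℕ → ℝ
  /-- the stable Faltings height of the Jacobian -/
  height : ℕ → ℝ
  omegaSq_nonneg : ∀ d X, good d X → 0 ≤ omegaSq X
  faltings_ineq : ∀ d X, good d X → ∀ h ∈ pts X, omegaSq X ≤ 4 * g * (g - 1) * h
  zhang : ∀ d X, good d X → ∃ h ∈ pts X, h ≤ omegaSq X / (2 * g - 2) + 1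
  /-- the constant in Noether's formula -/
  C₁ : ℕ
  noether : ∀ d X, good d X → omegaSq X ≤ 12 * height X + C₁
  /-- the constant in Yuan's theorem -/
  C₂ : ℕ
  yuan : ∀ d X, good d X → height X ≤ C₂ * (omegaSq X + 1)
  /-- the tuple of the characteristic polynomials of the Frobenius elements at the places in `V(K,S)`, for the curve `X` -/
  frob : ℕ → ℕ → ℕ
  frob_comp : Computable₂ frob
  /-- Weil: the Frobenius polynomials of the curves in question are in an explicit finite set -/
  weil : ℕ → ℕ
  weil_comp : Computable weil
  frob_lt : ∀ d X, good d X → frob d X < weil d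
  /-- Faltings, Masser and Wüstholz: curves with the same Frobenius polynomials at `V` have isogenous Jacobians, and the
  height of one is bounded in terms of the other -/
  isog : ℕ → ℕ → ℕ
  isog_comp : Computable₂ isog
  isog_spec : ∀ d X Y, good d X → good d Y → frob d X = frob d Y → height Y ≤ isog d X
  /-- effective Northcott property: the curves of bounded height (up to isomorphism over `K`) can be listed -/
  list : ℕ → ℕ → ℕ
  list_comp : Computable₂ list
  list_spec : ∀ (d X n : ℕ), good d X → height X ≤ n → ∃ Y, Y < list d n ∧ good d Y ∧ frob d Y = frob d X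

/-- Q1 in genus `g`: a number `c` such that every curve has a point with `h(x) ≤ c` can be computed from `(K,S)`. -/
def SmallPoints (T : ArakelovTheory) : Prop :=
  ∃ c : ℕ → ℕ, Computable c ∧ ∀ d X, T.good d X → ∃ h ∈ T.pts X, h ≤ c d

/-- A bound for the numbers `(ω, ω)` can be computed from `(K,S)`. -/
def BoundedOmega (T : ArakelovTheory) : Prop :=
  ∃ c : ℕ → ℕ, Computable c ∧ ∀ d X, T.good d X → T.omegaSq X ≤ c d

/-- A bound for the Faltings heights can be computed from `(K,S)`. -/
def BoundedHeight (T : ArakelovTheory) : Prop :=
  ∃ c : ℕ → ℕ, Computable c ∧ ∀ d X, T.good d X → T.height X ≤ c d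

/-- There is a semi-stable curve of genus `g` over `K` with set of bad reduction places `S` and Frobenius polynomials `s`. -/
def Occurs (T : ArakelovTheory) (p : ℕ × ℕ) : Prop := ∃ X, T.good p.1 X ∧ T.frob p.1 X = p.2

def thy (T : ArakelovTheory) : Pool.Agent.U644.EF.Thy where
  good := T.good
  good_dec := T.good_dec
  height := T.height
  sig := T.frob
  sig_comp := T.frob_comp
  sigBound := T.weil
  sigBound_comp := T.weil_comp
  sig_lt := T.frob_lt
  bound := T.isog
  bound_comp := T.isog_comp
  bound_spec := T.isog_spec
  list := T.list
  list_comp := T.list_comp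
  list_spec := T.list_spec

/-- The following are equivalent, for curves of genus `g` with semi-stable reduction and set of bad reduction places `S`. (1)
Q1 in genus `g`. (2) The numbers `(ω, ω)` can be bounded effectively. (3) The Faltings heights can be bounded effectively. (4) It
is decidable whether there is a curve for `(K,S)` with given Frobenius polynomials at `V(K,S)`. (5) The set of the data and
polynomials for which there is none is recursively enumerable. (6) The number of the tuples of polynomials which occur can be
computed from `(K,S)`. -/
theorem result (T : ArakelovTheory) : List.TFAE [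
    SmallPoints T,
    BoundedOmega T,
    BoundedHeight T,
    ComputablePred (Occurs T),
    REPred fun p => ¬ Occurs T p,
    Computable fun d => Nat.card {s // Occurs T (d, s)}] := by
  have h1 := Pool.Agent.U644.EF.main (thy T)
  have e1 : BoundedHeight T ↔ ComputablePred (Occurs T) := h1.out 0 1
  have e2 : ComputablePred (Occurs T) ↔ REPred fun p => ¬ Occurs T p := h1.out 1 2
  have e3 : ComputablePred (Occurs T) ↔ Computable fun d => Nat.card {s // Occurs T (d, s)} := h1.out 1 3
  have hg : (2 : ℝ) ≤ T.g := by exact_mod_cast T.two_le
  tfae_have 1 → 2 := by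
    rintro ⟨c, hc, h⟩
    refine ⟨fun d => 4 * T.g * T.g * c d, Primrec.nat_mul.to_comp.comp (Computable.const _) hc, fun d X hX => ?_⟩
    obtain ⟨x, hx, hxc⟩ := h d X hX
    have h2 := T.faltings_ineq d X hX x hx
    have h3 := T.omegaSq_nonneg d X hX
    have h4 : 0 ≤ x := by
      by_contra hneg
      push Not at hneg
      have : 4 * (T.g : ℝ) * (T.g - 1) * x < 0 := mul_neg_of_pos_of_neg (by nlinarith) hneg
      linarith
    push_cast
    have h5 : 4 * (T.g : ℝ) * (T.g - 1) * x ≤ 4 * T.g * T.g * c d := by
      have h6 : 4 * (T.g : ℝ) * (T.g - 1) ≤ 4 * T.g * T.g := by nlinarith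
      calc 4 * (T.g : ℝ) * (T.g - 1) * x ≤ 4 * T.g * T.g * x := mul_le_mul_of_nonneg_right h6 h4
        _ ≤ 4 * T.g * T.g * c d := mul_le_mul_of_nonneg_left hxc (by positivity)
    linarith
  tfae_have 2 → 3 := by
    rintro ⟨c, hc, h⟩
    refine ⟨fun d => T.C₂ * (c d + 1), Primrec.nat_mul.to_comp.comp (Computable.const _)
      (Primrec.succ.to_comp.comp hc), fun d X hX => ?_⟩
    have h2 := T.yuan d X hX
    have h3 := h d X hX
    push_cast
    refine h2.trans (mul_le_mul_of_nonneg_left ?_ (Nat.cast_nonneg _))
    linarith
  tfae_have 3 → 1 := by
    rintro ⟨c, hc, h⟩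
    refine ⟨fun d => 12 * c d + T.C₁ + 1, Primrec.succ.to_comp.comp (Primrec.nat_add.to_comp.comp
      (Primrec.nat_mul.to_comp.comp (Computable.const _) hc) (Computable.const _)), fun d X hX => ?_⟩
    obtain ⟨x, hx, hxc⟩ := T.zhang d X hX
    refine ⟨x, hx, hxc.trans ?_⟩
    have h2 := T.noether d X hX
    have h3 := h d X hX
    have h4 := T.omegaSq_nonneg d X hX
    have h5 : T.omegaSq X / (2 * T.g - 2) ≤ T.omegaSq X := by
      rw [div_le_iff₀ (by linarith)]
      nlinarith
    push_cast
    linarith
  tfae_have 3 ↔ 4 := e1
  tfae_have 4 ↔ 5 := e2
  tfae_have 4 ↔ 6 := e3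
  tfae_finish

end Pool.Agent.Results.MP_fe3691_nt.SmallPointsAndExistence
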